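import Pool.Agent.Helper62.NT.Goals

/-!
PROJECT NT (MP_8ff381_an), packet NT-ULT.
-/

set_option autoImplicit false

noncomputable section

namespace Pool.Agent.Helper2.NT.ULT

open Filter Topology Pool.Agent.Helper62.NT

theorem ulim_tendsto (α : Type) (U : Ultrafilter α) (φ : α → ℝ) (R : ℝ) (h : ∀ x, |φ x| ≤ R) :
    Tendsto φ U (𝓝 (ulim U φ)) ∧ |ulim U φ| ≤ R := by
  have hc : ∃ x, Tendsto φ (U : Filter α) (𝓝 x) := by
    have h1 : ((U.map φ : Ultrafilter ℝ) : Filter ℝ) ≤ 𝓟 (Set.Icc (-R) R) := by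
      rw [Ultrafilter.coe_map, le_principal_iff, mem_map]
      exact Filter.univ_mem' fun x => abs_le.1 (h x)
    obtain ⟨x, -, hx⟩ := isCompact_Icc.ultrafilter_le_nhds (U.map φ) h1
    exact ⟨x, by rwa [Ultrafilter.coe_map] at hx⟩
  have ht : Tendsto φ (U : Filter α) (𝓝 (ulim U φ)) := tendsto_nhds_limUnder hc
  refine ⟨ht, ?_⟩
  exact le_of_tendsto' ht.abs h

theorem un_succ (i : ℕ) (P : List ℕ → Prop) : (∀ᶠ u in (UN (i + 1) : Filter (List ℕ)), P u) ↔
    ∀ᶠ u in (UN i : Filter (List ℕ)), ∀ᶠ n in (UU : Filter ℕ), P (n :: u) := Iff.rfl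

theorem up_succ (k j : ℕ) (P : List ℕ × List ℕ → Prop) :
    (∀ᶠ c in (UP k (j + 1) : Filter (List ℕ × List ℕ)), P c) ↔
    ∀ᶠ c in (UP k j : Filter (List ℕ × List ℕ)), ∀ᶠ n in (UU : Filter ℕ), ∀ᶠ n' in (UU : Filter ℕ),
      P (n :: c.1, n' :: c.2) := Iff.rfl

theorem up_zero (k : ℕ) (P : List ℕ × List ℕ → Prop) :
    (∀ᶠ c in (UP k 0 : Filter (List ℕ × List ℕ)), P c) ↔ ∀ᶠ u in (UN k : Filter (List ℕ)), P (u, u) := Iff.rfl

theorem un_length (i : ℕ) : ∀ᶠ u in (UN i : Filter (List ℕ)), u.length = i := by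
  induction i with
  | zero =>
    change (∀ᶠ u in ((pure [] : Ultrafilter (List ℕ)) : Filter (List ℕ)), u.length = 0)
    rw [Ultrafilter.coe_pure]
    exact eventually_pure.2 rfl
  | succ i ih =>
    rw [un_succ]
    filter_upwards [ih] with u hu
    exact Filter.Eventually.of_forall fun n => by simp [hu]

theorem marg (k j : ℕ) : ∀ (P : List ℕ → Prop), (∀ᶠ u in (UN (k + j) : Filter (List ℕ)), P u) →
    ∀ᶠ c in (UP k j : Filter (List ℕ × List ℕ)), P c.1 ∧ P c.2 := by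
  induction j with
  | zero =>
    intro P h
    rw [up_zero]
    filter_upwards [h] with u hu
    exact ⟨hu, hu⟩
  | succ j ih =>
    intro P h
    have h1 := (un_succ (k + j) P).1 h
    rw [up_succ]
    filter_upwards [ih _ h1] with c hc
    filter_upwards [hc.1] with n hn
    filter_upwards [hc.2] with n' hn'
    exact ⟨hn, hn'⟩

theorem shape (k j : ℕ) : ∀ᶠ c in (UP k (j + 1) : Filter (List ℕ × List ℕ)), ∃ (x y u : List ℕ) (n n' : ℕ),
    c = (x ++ n :: u, y ++ n' :: u) ∧ n ≠ n' ∧ x.length = j ∧ y.length = j ∧ u.length = k := by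
  induction j with
  | zero =>
    rw [up_succ, up_zero]
    filter_upwards [un_length k] with u hu
    refine Filter.Eventually.of_forall fun n => ?_
    have h1 : ∀ᶠ n' in (UU : Filter ℕ), n' ≠ n := by
      apply Filter.hyperfilter_le_cofinite
      exact (Set.finite_singleton n).compl_mem_cofinite
    filter_upwards [h1] with n' hn'
    exact ⟨[], [], u, n, n', rfl, fun e => hn' e.symm, rfl, rfl, hu⟩
  | succ j ih =>
    rw [up_succ]
    filter_upwards [ih] with c hc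
    refine Filter.Eventually.of_forall fun m => Filter.Eventually.of_forall fun m' => ?_
    obtain ⟨x, y, u, n, n', rfl, h1, h2, h3, h4⟩ := hc
    exact ⟨m :: x, m' :: y, u, n, n', rfl, h1, by simp [h2], by simp [h3], h4⟩

theorem pl (g : List ℕ → ℕ → ℝ) (R : ℝ) (h : ∀ u, VB (g u) R ∧ ∀ t, |g u t| ≤ R) (r : ℕ) :
    ∀ u : List ℕ, VB (PL g r u) R ∧ (∀ t, |PL g r u t| ≤ R) ∧
    ∀ t, Tendsto (fun n => PL g r (n :: u) t) (UU : Filter ℕ) (𝓝 (PL g (r + 1) u t)) := by
  have key : ∀ r, ∀ u : List ℕ, VB (PL g r u) R ∧ (∀ t, |PL g r u t| ≤ R) := by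
    intro r
    induction r with
    | zero => exact h
    | succ r ih =>
      intro u
      have h1 : ∀ t, Tendsto (fun n => PL g r (n :: u) t) (UU : Filter ℕ) (𝓝 (PL g (r + 1) u t)) :=
        fun t => (ulim_tendsto ℕ UU (fun n => PL g r (n :: u) t) R fun n => (ih (n :: u)).2 t).1
      have h2 : ∀ t, |PL g (r + 1) u t| ≤ R :=
        fun t => (ulim_tendsto ℕ UU (fun n => PL g r (n :: u) t) R fun n => (ih (n :: u)).2 t).2
      refine ⟨fun n p hp => ?_, h2⟩
      have h3 : Tendsto (fun m => qs (PL g r (m :: u)) n p) (UU : Filter ℕ) (𝓝 (qs (PL g (r + 1) u) n p)) := by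
        unfold qs
        exact tendsto_finsetSum _ fun i _ => ((h1 _).sub (h1 _)).pow 2
      exact le_of_tendsto' h3 fun m => (ih (m :: u)).1 n p hp
  intro u
  exact ⟨(key r u).1, (key r u).2, fun t =>
    (ulim_tendsto ℕ UU (fun n => PL g r (n :: u) t) R fun n => (key r (n :: u)).2 t).1⟩

theorem t : Pool.Agent.Helper62.NT.S_ULT :=
  ⟨ulim_tendsto, un_succ, un_length, up_succ, marg, shape, fun g R h r u => pl g R h r u⟩

end Pool.Agent.Helper2.NT.ULT
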